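import Pool.Agent.Lib.MP_b5021c_nt.IfaceB

/-!
Row A2R of board b5 (MP_b5021c_nt): (A2) for the ring `RO O`.
-/

set_option autoImplicit false

namespace Pool.Agent.B5.H93

open scoped LaurentPolynomial
open Polynomial

section

variable {O : Type} [CommRing O] [Coef O]

theorem exists_circle {z : ℂ} (hz : ‖z‖ = 1) : ∃ w : Circle, (w : ℂ) = z :=
  ⟨⟨z, by
    rw [Submonoid.unitSphere, Submonoid.mem_mk]
    simpa using hz⟩, rfl⟩

/-- evaluation of a polynomial, at a point of the circle. -/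
theorem evR_toLaurent (z : Circle) (P : O[X]) :
    evR z (Polynomial.toLaurent P) = (P.map (Coef.emb : O →+* ℂ)).eval (z : ℂ) := by
  rw [evR, LaurentPolynomial.eval₂_toLaurent, Polynomial.eval_map]
  rfl

theorem evR_T (z : Circle) (n : ℤ) :
    evR z (LaurentPolynomial.T n : RO O) = (z : ℂ) ^ n := by
  rw [evR, LaurentPolynomial.eval₂_T]
  rw [Units.val_zpow_eq_zpow_val]
  rfl

theorem norm_evR_mul_T (z : Circle) (p : RO O) (n : ℕ) :
    ‖evR z (p * LaurentPolynomial.T n)‖ = ‖evR z p‖ := by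
  rw [map_mul, evR_T, norm_mul, norm_zpow, Circle.norm_coe, one_zpow, mul_one]

/-- The Mahler measure of an element of `RO O` through a polynomial. -/
theorem M_eq [IsDomain O] [IsPrincipalIdealRing O] (h2 : EvRS) {p : RO O} {P : O[X]} {n : ℕ}
    (hp : p ≠ 0) (hP : Polynomial.toLaurent P = p * LaurentPolynomial.T n) :
    M p = (P.map (Coef.emb : O →+* ℂ)).mahlerMeasure := by
  have hP0 : P.map (Coef.emb : O →+* ℂ) ≠ 0 := by
    rw [Ne, Polynomial.map_eq_zero_iff emb_inj]
    intro h0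
    rw [h0, map_zero] at hP
    have h3 := (LaurentPolynomial.isUnit_T (R := O) (n : ℤ)).ne_zero
    rcases mul_eq_zero.mp hP.symm with h | h
    · exact hp h
    · exact h3 h
  have hM : (P.map (Coef.emb : O →+* ℂ)).mahlerMeasure =
      Real.exp (Real.circleAverage
        (fun z => Real.log ‖(P.map (Coef.emb : O →+* ℂ)).eval z‖) 0 1) := by
    rw [Polynomial.mahlerMeasure, if_pos hP0, Polynomial.logMahlerMeasure_def]
  rw [hM, M]
  congr 1
  apply Real.circleAverage_congr_sphere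
  intro z hz
  have hz1 : ‖z‖ = 1 := by
    rw [mem_sphere_zero_iff_norm, abs_one] at hz
    exact hz
  obtain ⟨w, rfl⟩ := exists_circle hz1
  simp only
  rw [(h2 O).1 w p]
  congr 1
  rw [← evR_toLaurent, hP, norm_evR_mul_T]

end

theorem a2r (h1 : A2cS) (h2 : EvRS) : A2S := by
  intro O _ _ _ _ ι _ p q c hq hp hc hle
  classical
  have hex : ∀ i, ∃ (n : ℕ) (P : O[X]), Polynomial.toLaurent P = p i * LaurentPolynomial.T n :=
    fun i => LaurentPolynomial.exists_T_pow (p i)
  choose n P hP using hex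
  obtain ⟨m, Q, hQ⟩ := LaurentPolynomial.exists_T_pow q
  have h3 : ∀ z : ℂ, ‖z‖ = 1 →
      ∑ i, ‖((P i).map (Coef.emb : O →+* ℂ)).eval z‖ ≤ c * ‖(Q.map (Coef.emb : O →+* ℂ)).eval z‖ := by
    intro z hz
    obtain ⟨w, rfl⟩ := exists_circle hz
    have h4 := hle w
    rw [← evR_toLaurent, hQ, norm_evR_mul_T]
    have h5 : ∀ i, ‖((P i).map (Coef.emb : O →+* ℂ)).eval (w : ℂ)‖ = ‖evR w (p i)‖ := by
      intro i
      rw [← evR_toLaurent, hP i, norm_evR_mul_T]
    simp only [h5]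
    exact h4
  have hQ0 : Q.map (Coef.emb : O →+* ℂ) ≠ 0 := by
    rw [Ne, Polynomial.map_eq_zero_iff emb_inj]
    intro h0
    rw [h0, map_zero] at hQ
    have h3 := (LaurentPolynomial.isUnit_T (R := O) (m : ℤ)).ne_zero
    rcases mul_eq_zero.mp hQ.symm with h | h
    · exact hq h
    · exact h3 h
  have h6 := h1 ι (fun i => (P i).map (Coef.emb : O →+* ℂ)) (Q.map (Coef.emb : O →+* ℂ)) c hQ0 hc h3
  rw [M_eq h2 hq hQ]
  have h7 : ∀ i, M (p i) = ((P i).map (Coef.emb : O →+* ℂ)).mahlerMeasure := fun i =>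
    M_eq h2 (hp i) (hP i)
  simp only [h7]
  exact h6

end Pool.Agent.B5.H93
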