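import Pool.Agent.Lib.MP_b5021c_nt.IfaceK3
import Pool.Agent.Lib.MP_b5021c_nt.IfaceS2

/-!
# MAS: the sharp main estimate `k + 1 ≤ 2 θ + 120 log θ + 240000` for `θ` in the `k`-th derived set
of the Pisot numbers (copy of `K/H25/Mae.lean`, stage 2)
-/

namespace Pool.Agent.B5.H93

open Pool.Agent.B5 Pool.Agent.MP_b5021c_nt

/-- MAS. The main estimate of stage 2. -/
def MasS : Prop := ∀ (k : ℕ) (θ : ℝ), 1 ≤ k → θ ∈ PSk k → (k : ℝ) + 1 ≤ bPS θ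

/-- Any bound of the classes `P(θ)` bounds the order of the derived sets. -/
theorem mas_gen (hT : ThkS) (hG : GdeS) (B : ℝ → ℝ) (hJ : ∀ θ : ℝ, BdP Eis θ (B θ)) :
    ∀ (k : ℕ) (θ : ℝ), 1 ≤ k → θ ∈ PSk k → (k : ℝ) + 1 ≤ B θ := by
  intro k θ hk h
  obtain ⟨D, hD⟩ := hT k θ h (by omega)
  obtain ⟨h1, h2⟩ := hG (Fin (k + 1)) D θ hD
  have h3 := hJ θ (Fin (k + 1)) (Fin (k + 1) → ℤ) (AddMonoidHom.id _) (toE D) h1 h2
  rw [Module.finrank_fin_fun] at h3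
  push_cast at h3
  exact h3

/-- MAS. -/
theorem mas (hT : ThkS) (hG : GdeS) (hJ : JpeS) : MasS := mas_gen hT hG bPS hJ

/-- The same written out: `k + 1 ≤ 2 θ + 120 log θ + 240000`. -/
theorem mas' (hT : ThkS) (hG : GdeS) (hJ : JpeS) (k : ℕ) (θ : ℝ) (hk : 1 ≤ k) (h : θ ∈ PSk k) :
    (k : ℝ) + 1 ≤ 2 * θ + 120 * Real.log θ + 240000 := mas hT hG hJ k θ hk h

end Pool.Agent.B5.H93
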