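import Pool.Agent.Lib.MP_b5021c_nt.IfaceS4
import Pool.Agent.Lib.MP_b5021c_nt.B.H93.Mas

/-!
# MA3: every element of the `k`-th derived set of the Pisot numbers is at least
`(k + 1) / 2 - 240000` (final form of stage 2, from the bound `2 θ + 480000` of the classes `P`)
-/

namespace Pool.Agent.B5.H93

open Pool.Agent.B5 Pool.Agent.MP_b5021c_nt

/-- MA3. -/
theorem ma3 (hT : ThkS) (hG : GdeS) (hJ : Jq3S) : Ma3S :=
  mas_gen hT hG (fun θ => 2 * θ + 480000) hJ

end Pool.Agent.B5.H93
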