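import Pool.Agent.Lib.MP_b5021c_nt.IfaceE3

/-!
# Row ND3 of board b5: no double zero on the circle
-/

namespace Pool.Agent.B5.H93

open Polynomial
open Pool.Agent.MP_b5021c_nt (nz)

/-- On the circle `(z - z0)^2 = - z0 z |z - z0|^2`. -/
lemma sq_circle (z z0 : ℂ) (hz : ‖z‖ = 1) (hz0 : ‖z0‖ = 1) :
    (z - z0) ^ 2 = ((‖z - z0‖ ^ 2 : ℝ) : ℂ) * (-(z0 * z)) := by
  have h1 : z * (starRingEnd ℂ) z = 1 := by
    rw [Complex.mul_conj, Complex.normSq_eq_norm_sq, hz]; norm_num
  have h2 : z0 * (starRingEnd ℂ) z0 = 1 := by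
    rw [Complex.mul_conj, Complex.normSq_eq_norm_sq, hz0]; norm_num
  have h3 : ((‖z - z0‖ ^ 2 : ℝ) : ℂ) = (z - z0) * (starRingEnd ℂ) (z - z0) := by
    rw [Complex.mul_conj, Complex.normSq_eq_norm_sq]
  rw [h3, map_sub]
  have : (z - z0) * ((starRingEnd ℂ) z - (starRingEnd ℂ) z0) * (-(z0 * z)) =
      (z - z0) * (z * (z0 * (starRingEnd ℂ) z0) - z0 * (z * (starRingEnd ℂ) z)) := by ring
  rw [this, h1, h2]
  ring

/-- (ND3). -/
theorem nd3 (hP : Pc3S) : Nd3S := by
  intro q v z0 hq hqc hre hv hs hz0 hdiv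
  obtain ⟨s, hs1, hs0⟩ := hs
  obtain ⟨v1, rfl⟩ := hdiv
  have hz00 : z0 ≠ 0 := by
    intro h; rw [h] at hz0; simp at hz0
  have hv1 : v1 ≠ 0 := by
    rintro rfl; simp at hv
  set F : ℂ[X] := C (-z0) * (X * v1) with hF
  have hF0 : F ≠ 0 := by
    rw [hF]
    exact mul_ne_zero (by simpa using hz00) (mul_ne_zero X_ne_zero hv1)
  have hFe : ∀ z : ℂ, F.eval z = -z0 * (z * v1.eval z) := by
    intro z; simp [hF]
  have hve : ∀ z : ℂ, ‖z‖ = 1 → ((X - C z0) ^ 2 * v1).eval z =
      ((‖z - z0‖ ^ 2 : ℝ) : ℂ) * F.eval z := by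
    intro z hz
    rw [eval_mul, eval_pow, eval_sub, eval_X, eval_C, sq_circle z z0 hz hz0, hFe]
    ring
  have hne : ∀ z : ℂ, ‖z‖ = 1 → z ≠ z0 →
      0 ≤ (F.eval z * (starRingEnd ℂ) (q.eval z)).re := by
    intro z hz hzz
    have h := hre z hz
    rw [hve z hz, mul_assoc, Complex.re_ofReal_mul] at h
    have hp : 0 < ‖z - z0‖ ^ 2 := by
      have : 0 < ‖z - z0‖ := norm_pos_iff.mpr (sub_ne_zero.mpr hzz)
      positivity
    exact nonneg_of_mul_nonneg_right h hp
  have hall : ∀ z : ℂ, ‖z‖ = 1 → 0 ≤ (F.eval z * (starRingEnd ℂ) (q.eval z)).re := by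
    intro z hz
    by_cases hzz : z = z0
    · subst hzz
      let g : ℝ → ℂ := fun t => z * Complex.exp (t * Complex.I)
      have hg : Continuous g := by fun_prop
      have hcont : Continuous fun t : ℝ =>
          (F.eval (g t) * (starRingEnd ℂ) (q.eval (g t))).re := by
        have h1 : Continuous fun t : ℝ => F.eval (g t) := F.continuous.comp hg
        have h2 : Continuous fun t : ℝ => (starRingEnd ℂ) (q.eval (g t)) :=
          Complex.continuous_conj.comp (q.continuous.comp hg)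
        exact Complex.continuous_re.comp (h1.mul h2)
      have hlim : Filter.Tendsto (fun t : ℝ =>
          (F.eval (g t) * (starRingEnd ℂ) (q.eval (g t))).re) (nhdsWithin 0 (Set.Ioi 0))
          (nhds ((F.eval (g 0) * (starRingEnd ℂ) (q.eval (g 0))).re)) :=
        (hcont.tendsto 0).mono_left nhdsWithin_le_nhds
      have hg0 : g 0 = z := by simp [g]
      rw [hg0] at hlim
      refine ge_of_tendsto hlim ?_
      have hIoo : Set.Ioo (0 : ℝ) 1 ∈ nhdsWithin (0 : ℝ) (Set.Ioi 0) :=
        Ioo_mem_nhdsGT one_pos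
      filter_upwards [hIoo] with t ht
      apply hne
      · simp [g, hz, Complex.norm_exp_ofReal_mul_I]
      · intro h
        have h1 : Complex.exp (t * Complex.I) = 1 := by
          have : z * Complex.exp (t * Complex.I) = z * 1 := by simpa [g] using h
          exact mul_left_cancel₀ hz00 this
        have h2 : (Complex.exp (t * Complex.I)).im = 0 := by rw [h1]; simp
        rw [Complex.exp_ofReal_mul_I_im] at h2
        have h3 : 0 < Real.sin t :=
          Real.sin_pos_of_pos_of_lt_pi ht.1 (ht.2.trans (by linarith [Real.pi_gt_three]))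
        linarith
    · exact hne z hz hzz
  have h1 := (hP q F hq hqc hall).2.2 hF0
  -- two zeros
  have hs2 : v1.eval s = 0 := by
    rw [eval_mul, eval_pow, eval_sub, eval_X, eval_C] at hs0
    rcases mul_eq_zero.mp hs0 with h | h
    · exfalso
      have : s = z0 := by
        have := pow_eq_zero_iff (two_ne_zero) |>.mp h
        exact sub_eq_zero.mp this
      rw [this, hz0] at hs1
      exact lt_irrefl _ hs1
    · exact h
  have hroots : F.roots = {0} + v1.roots := by
    rw [hF, roots_C_mul _ (by simpa using hz00), roots_mul (mul_ne_zero X_ne_zero hv1), roots_X]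
  have hmem : s ∈ v1.roots := (mem_roots hv1).mpr hs2
  have h2 : 2 ≤ nz F := by
    unfold nz
    rw [hroots, Multiset.filter_add, Multiset.card_add]
    have ha : (Multiset.filter (fun z : ℂ => ‖z‖ < 1) {0}).card = 1 := by
      rw [Multiset.filter_singleton]; simp
    have hb : 1 ≤ (Multiset.filter (fun z : ℂ => ‖z‖ < 1) v1.roots).card := by
      rw [Nat.one_le_iff_ne_zero, ← Nat.pos_iff_ne_zero, Multiset.card_pos_iff_exists_mem]
      exact ⟨s, Multiset.mem_filter.mpr ⟨hmem, hs1⟩⟩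
    omega
  omega

end Pool.Agent.B5.H93
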