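import Pool.Agent.Lib.MP_b5021c_nt.IfaceE2
import Pool.Agent.Lib.MP_b5021c_nt.B.H71.I1c

/-!
# Row TP3 of board b5: positivity of the residues of a terminal pair
-/

namespace Pool.Agent.B5.H93

open scoped LaurentPolynomial Topology
open AddMonoidAlgebra
open Pool.Agent.B5.H71

section

variable {O : Type} [CommRing O] [IsDomain O] [IsPrincipalIdealRing O] [Coef O]
  {L : Type} [AddCommGroup L] [Module.Free ℤ L] [Module.Finite ℤ L]

omit [IsDomain O] [IsPrincipalIdealRing O] [Module.Free ℤ L] [Module.Finite ℤ L] in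
/-- The value of the factor `1 - x`. -/
theorem ev_sfa (z : Circle) (v : AddChar L Circle) (b : L) (e : (RO O)ˣ) :
    ev z v (sfa b e) = 1 - evR z ((e⁻¹ : (RO O)ˣ) : RO O) * (v b : ℂ) := by
  rw [sfa, map_sub, map_one, ev_single]

omit [IsDomain O] [IsPrincipalIdealRing O] [Module.Free ℤ L] [Module.Finite ℤ L] in
/-- Values along a one-parameter subgroup are continuous. -/
theorem cont_twist (z : Circle) (u : AddChar L Circle) (mu : L →+ ℤ) (F : AO O L) :
    Continuous fun t : Circle => ev z (twist u mu t) F := by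
  have h1 : ∀ t : Circle, ev z (twist u mu t) F =
      ∑ a ∈ (spec z F).coeff.support, (spec z F).coeff a * ((u a * t ^ (mu a) : Circle) : ℂ) := by
    intro t
    rfl
  simp_rw [h1]
  refine continuous_finsetSum _ fun a _ => ?_
  refine Continuous.mul continuous_const ?_
  exact continuous_subtype_val.comp (continuous_const.mul (continuous_zpow (mu a)))

omit [IsDomain O] [IsPrincipalIdealRing O] [Module.Free ℤ L] [Module.Finite ℤ L] in
/-- The slice of the factor `1 - x`. -/
theorem sl_sfa (z : Circle) (v : AddChar L Circle) (lam : L →+ ℤ) (b : L) (e : (RO O)ˣ) :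
    sl v lam (spec z (sfa b e)) = 1 - Polynomial.C (evR z ((e⁻¹ : (RO O)ˣ) : RO O) * (v b : ℂ)) *
      Polynomial.X ^ (lam b).toNat := by
  have h1 : spec z (sfa b e : AO O L) + single b (evR z ((e⁻¹ : (RO O)ˣ) : RO O)) =
      single 0 1 := by
    rw [sfa, map_sub, map_one, spec_single, sub_add_cancel]; rfl
  have h2 : sl v lam (spec z (sfa b e)) + sl v lam (single b (evR z ((e⁻¹ : (RO O)ˣ) : RO O))) =
      sl v lam (single 0 1) := by
    rw [← sl_add, h1]
  rw [sl_cst, sl_single] at h2
  rw [eq_sub_of_add_eq h2, Polynomial.C_mul_X_pow_eq_monomial, Polynomial.C_1]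

omit [IsDomain O] [IsPrincipalIdealRing O] [Module.Free ℤ L] [Module.Finite ℤ L] in
theorem nn_sfa (z : Circle) (lam : L →+ ℤ) (b : L) (e : (RO O)ˣ) (hb : 0 ≤ lam b) :
    Nn lam (spec z (sfa b e : AO O L)) := by
  apply nn_spec
  intro a ha
  have h1 := Finsupp.mem_support_iff.mp ha
  by_contra hneg
  apply h1
  rw [sfa]
  have ha0 : a ≠ 0 := by
    rintro rfl; rw [map_zero] at hneg; exact hneg le_rfl
  have hab : a ≠ b := by
    rintro rfl; exact hneg hb
  change (1 - single b _ : AO O L).coeff a = 0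
  rw [coeff_sub, one_def, coeff_single, coeff_single, Finsupp.sub_apply,
    Finsupp.single_eq_of_ne ha0, Finsupp.single_eq_of_ne hab, sub_zero]

/-- The generic case. -/
theorem tp3_gen (hM : SlMulS) (hEv : EvRS) {r : ℕ} {lam : L →+ ℤ} {B : AO O L} {c : RO O} {n : ℕ}
    {b : Fin n → L} {f : Fin n → (L →+ ℤ)} {e : Fin n → (RO O)ˣ} {q : ∀ i, AO O (Ker (f i))}
    (hT : TPair r lam B c n b f e) (hq : Residues B b f e q) (i : Fin n) (h : f i (b i) = 1)
    (z : Circle) (u : AddChar (Ker (f i)) Circle) (hc : evR z c ≠ 0)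
    (hgen : ∀ j, j ≠ i → ev z u (cl (f i) (b i) h (e i) (sfa (b j) (e j))) ≠ 0) :
    0 ≤ (ev z u (q i) / evR z c).re := by
  have he1 : ‖evR z (e i : RO O)‖ = 1 := (hEv O).2.1 z _ (e i).isUnit
  set ζ : Circle := ⟨evR z (e i : RO O), mem_sphere_zero_iff_norm.mpr he1⟩ with hζ
  have hζ' : (ζ : ℂ) = evR z (e i : RO O) := rfl
  set v := extc (f i) (b i) h u ζ with hv
  set PB := sl v lam (spec z B) with hPB
  set PF : Fin n → Polynomial ℂ := fun k => sl v lam (spec z (sfa (b k) (e k) : AO O L)) with hPF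
  have hNn : ∀ k, Nn lam (spec z (sfa (b k) (e k) : AO O L)) :=
    fun k => nn_sfa z lam (b k) (e k) (hT.pb k).le
  have hprod := sl_prod hM v lam Finset.univ (fun k => spec z (sfa (b k) (e k) : AO O L))
    (fun k _ => hNn k)
  have hPH : sl v lam (spec z (den c b e)) = Polynomial.C (evR z c) * ∏ k, PF k := by
    rw [den, map_mul, map_prod, cst, spec_single]
    have h1 := hM L v lam (single 0 (evR z c)) (∏ k, spec z (sfa (b k) (e k) : AO O L)) (by
      intro a ha
      rw [coeff_single] at ha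
      have := Finsupp.support_single_subset ha
      rw [Finset.mem_singleton] at this
      rw [this, map_zero]) hprod.2
    rw [h1.1, sl_cst, hprod.1]
  set N : ℕ := (lam (b i)).toNat with hN
  have hN0 : N ≠ 0 := by
    have := hT.pb i
    omega
  have hPi : PF i = 1 - Polynomial.X ^ N := by
    change sl v lam (spec z (sfa (b i) (e i) : AO O L)) = _
    rw [sl_sfa]
    have h3 : (v (b i) : ℂ) = evR z (e i : RO O) := by
      rw [hv, extc_self]
    have h4 : evR z (((e i)⁻¹ : (RO O)ˣ) : RO O) * evR z (e i : RO O) = 1 := by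
      rw [← map_mul, Units.inv_mul, map_one]
    rw [h3, h4, Polynomial.C_1, one_mul]
  -- the inequality without the factor `1 - s^N`
  have hest : ∀ s : ℝ, 0 < s → s < 1 → 0 ≤ (PB.eval (s : ℂ) * (starRingEnd ℂ)
      (evR z c * ∏ k ∈ Finset.univ.erase i, (PF k).eval (s : ℂ))).re := by
    intro s hs0 hs1
    have hns : ‖(s : ℂ)‖ = s := by
      rw [Complex.norm_real, Real.norm_eq_abs, abs_of_pos hs0]
    have h1 := hT.pos z hc v (s : ℂ) (by rw [hns]; exact hs1)
    rw [← hPB, hPH, Polynomial.eval_mul, Polynomial.eval_C, Polynomial.eval_prod,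
      ← Finset.mul_prod_erase Finset.univ _ (Finset.mem_univ i), hPi] at h1
    have h2 : (1 - Polynomial.X ^ N : Polynomial ℂ).eval (s : ℂ) = ((1 - s ^ N : ℝ) : ℂ) := by
      rw [Polynomial.eval_sub, Polynomial.eval_one, Polynomial.eval_pow, Polynomial.eval_X]
      push_cast; ring
    rw [h2] at h1
    have h3 : PB.eval (s : ℂ) * (starRingEnd ℂ) (evR z c * (((1 - s ^ N : ℝ) : ℂ) *
        ∏ k ∈ Finset.univ.erase i, (PF k).eval (s : ℂ))) = ((1 - s ^ N : ℝ) : ℂ) *
        (PB.eval (s : ℂ) * (starRingEnd ℂ)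
          (evR z c * ∏ k ∈ Finset.univ.erase i, (PF k).eval (s : ℂ))) := by
      rw [map_mul, map_mul, map_mul, Complex.conj_ofReal]; ring
    rw [h3, Complex.re_ofReal_mul] at h1
    have h4 : 0 < 1 - s ^ N := by
      have := pow_lt_one₀ hs0.le hs1 hN0
      linarith
    exact nonneg_of_mul_nonneg_right h1 h4
  have hlim := lim_le (fun _ : ℝ => (0 : ℝ)) (fun s : ℝ => (PB.eval (s : ℂ) * (starRingEnd ℂ)
      (evR z c * ∏ k ∈ Finset.univ.erase i, (PF k).eval (s : ℂ))).re) continuous_const
    (by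
      refine Complex.continuous_re.comp (Continuous.mul
        (PB.continuous.comp Complex.continuous_ofReal) (Complex.continuous_conj.comp
          (continuous_const.mul ?_)))
      refine continuous_finsetProd _ fun k _ => ?_
      exact (PF k).continuous.comp Complex.continuous_ofReal) hest
  simp only [Complex.ofReal_one] at hlim
  have hk : ∀ k, (PF k).eval 1 = ev z u (cl (f i) (b i) h (e i) (sfa (b k) (e k))) := by
    intro k
    change (sl v lam (spec z (sfa (b k) (e k) : AO O L))).eval 1 = _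
    rw [sl_eval_one, ← ev_extc (f i) (b i) h u ζ z (e i) hζ']
    rfl
  have hB1 : PB.eval 1 = ev z u (q i) *
      ∏ k ∈ Finset.univ.erase i, ev z u (cl (f i) (b i) h (e i) (sfa (b k) (e k))) := by
    rw [hPB, sl_eval_one, ← map_prod, ← map_mul, ← hq i h, ← ev_extc (f i) (b i) h u ζ z (e i) hζ']
    rfl
  have hP : (∏ k ∈ Finset.univ.erase i, (PF k).eval 1) =
      ∏ k ∈ Finset.univ.erase i, ev z u (cl (f i) (b i) h (e i) (sfa (b k) (e k))) :=
    Finset.prod_congr rfl fun k _ => hk k
  rw [hP, hB1] at hlim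
  set W : ℂ := ∏ k ∈ Finset.univ.erase i, ev z u (cl (f i) (b i) h (e i) (sfa (b k) (e k))) with hW
  have hW0 : W ≠ 0 := by
    rw [hW]
    apply Finset.prod_ne_zero_iff.mpr
    intro k hk
    exact hgen k (Finset.ne_of_mem_erase hk)
  have h5 : ev z u (q i) * W * (starRingEnd ℂ) (evR z c * W) =
      ((Complex.normSq W * Complex.normSq (evR z c) : ℝ) : ℂ) * (ev z u (q i) / evR z c) := by
    rw [map_mul]
    have hcc : (starRingEnd ℂ) (evR z c) = (Complex.normSq (evR z c) : ℂ) / evR z c := by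
      rw [eq_div_iff hc, mul_comm, Complex.mul_conj]
    have hWW : W * (starRingEnd ℂ) W = (Complex.normSq W : ℂ) := Complex.mul_conj W
    calc ev z u (q i) * W * ((starRingEnd ℂ) (evR z c) * (starRingEnd ℂ) W)
        = ev z u (q i) * (W * (starRingEnd ℂ) W) * (starRingEnd ℂ) (evR z c) := by ring
      _ = _ := by rw [hWW, hcc]; push_cast; ring
  rw [h5, Complex.re_ofReal_mul] at hlim
  have h6 : 0 < Complex.normSq W * Complex.normSq (evR z c) :=
    mul_pos (Complex.normSq_pos.mpr hW0) (Complex.normSq_pos.mpr hc)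
  exact nonneg_of_mul_nonneg_right hlim h6

end

/-- (TP3). -/
theorem tp3 (hM : SlMulS) (hEv : EvRS) : Tp3S := by
  intro O _ _ _ _ L _ _ _ r lam B c n b f e q hT hq i z u hc
  have h : f i (b i) = 1 := by simpa using hT.dual i i
  -- the direction of the perturbation
  set mu : Ker (f i) →+ ℤ := (∑ k ∈ Finset.univ.erase i, f k).comp (incl (Ker (f i))) with hmu
  let g : ℝ → Circle := fun t => Circle.exp t
  have hg : Continuous g := Circle.exp.continuous
  have hcont : Continuous fun t : ℝ => (ev z (twist u mu (g t)) (q i) / evR z c).re :=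
    Complex.continuous_re.comp (((cont_twist z u mu (q i)).comp hg).div_const _)
  have hlim : Filter.Tendsto (fun t : ℝ => (ev z (twist u mu (g t)) (q i) / evR z c).re)
      (𝓝[>] 0) (𝓝 (ev z (twist u mu (g 0)) (q i) / evR z c).re) :=
    (hcont.tendsto 0).mono_left nhdsWithin_le_nhds
  have hg0 : twist u mu (g 0) = u := by
    ext a
    simp [twist, g]
  rw [hg0] at hlim
  refine ge_of_tendsto hlim ?_
  have hev : ∀ j, j ≠ i → ∀ᶠ t in 𝓝[>] (0 : ℝ),
      ev z (twist u mu (g t)) (cl (f i) (b i) h (e i) (sfa (b j) (e j))) ≠ 0 := by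
    intro j hj
    have hfj : f i (b j) = 0 := by
      rw [hT.dual i j, if_neg (Ne.symm hj)]
    set b' : Ker (f i) := ⟨b j, mem_Ker.mpr hfj⟩ with hb'
    have hcl : cl (f i) (b i) h (e i) (sfa (b j) (e j) : AO O L) = sfa b' (e j) := by
      have : (sfa (b j) (e j) : AO O L) = em (Ker (f i)) (sfa b' (e j)) := by
        rw [sfa, sfa, map_sub, map_one, em_single]
      rw [this, cl_em]
    have hmu1 : mu b' = 1 := by
      have : mu b' = ∑ k ∈ Finset.univ.erase i, f k (b j) := by
        rw [hmu, AddMonoidHom.comp_apply, AddMonoidHom.finsetSum_apply]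
        rfl
      rw [this, Finset.sum_eq_single j]
      · rw [hT.dual j j, if_pos rfl]
      · intro k _ hk
        rw [hT.dual k j, if_neg hk]
      · intro hn
        exact absurd (Finset.mem_erase.mpr ⟨hj, Finset.mem_univ j⟩) hn
    set w : ℂ := evR z (((e j)⁻¹ : (RO O)ˣ) : RO O) * (u b' : ℂ) with hw
    have hval : ∀ t : ℝ, ev z (twist u mu (g t)) (cl (f i) (b i) h (e i) (sfa (b j) (e j))) =
        1 - w * (g t : ℂ) := by
      intro t
      rw [hcl, ev_sfa]
      have : ((twist u mu (g t) b' : Circle) : ℂ) = (u b' : ℂ) * (g t : ℂ) := by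
        change ((u b' * (g t) ^ (mu b') : Circle) : ℂ) = _
        rw [hmu1, zpow_one, Circle.coe_mul]
      rw [this, hw]; ring
    simp_rw [hval]
    by_cases hw1 : w = 1
    · have hIoo : Set.Ioo (0 : ℝ) 1 ∈ 𝓝[>] (0 : ℝ) := Ioo_mem_nhdsGT one_pos
      filter_upwards [hIoo] with t ht h0
      rw [hw1, one_mul, sub_eq_zero] at h0
      have h2 : ((g t : Circle) : ℂ).im = 0 := by rw [← h0]; simp
      have h2' : (Complex.exp (t * Complex.I)).im = 0 := by
        simpa [g, Circle.coe_exp] using h2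
      rw [Complex.exp_ofReal_mul_I_im] at h2'
      have h3 : 0 < Real.sin t :=
        Real.sin_pos_of_pos_of_lt_pi ht.1 (ht.2.trans (by linarith [Real.pi_gt_three]))
      linarith
    · have hc1 : Continuous fun t : ℝ => 1 - w * ((g t : Circle) : ℂ) :=
        continuous_const.sub (continuous_const.mul (continuous_subtype_val.comp hg))
      have hne : (fun t : ℝ => 1 - w * ((g t : Circle) : ℂ)) 0 ≠ 0 := by
        simp only [g, Circle.exp_zero, Circle.coe_one, mul_one]
        exact sub_ne_zero.mpr (Ne.symm hw1)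
      exact (hc1.continuousAt.eventually_ne hne).filter_mono nhdsWithin_le_nhds
  have hall : ∀ᶠ t in 𝓝[>] (0 : ℝ), ∀ j, j ≠ i →
      ev z (twist u mu (g t)) (cl (f i) (b i) h (e i) (sfa (b j) (e j))) ≠ 0 := by
    rw [Filter.eventually_all]
    intro j
    by_cases hj : j = i
    · exact Filter.Eventually.of_forall fun t hne => absurd hj hne
    · filter_upwards [hev j hj] with t ht _ using ht
  filter_upwards [hall] with t ht
  exact tp3_gen hM hEv hT hq i h z _ hc ht

end Pool.Agent.B5.H93
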