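import Pool.Agent.Lib.MP_b5021c_nt.IfaceEV
import Pool.Agent.Lib.MP_b5021c_nt.K.H31.Clo

/-!
# Board b5, row EV_CEV: one closing over the Eisenstein integers, with facet ports
-/

namespace Pool.Agent.B5.H93

open scoped LaurentPolynomial
open Pool.Agent.MP_b5021c_nt (Eis)
open Pool.Agent.B5.Clo

theorem nE_cast (x : Eis) : (nE x : ℝ) = ‖(Coef.emb x : ℂ)‖ ^ 2 := by
  have h1 : ‖(Coef.emb x : ℂ)‖ ^ 2 = (x.norm : ℝ) := Pool.Agent.MP_b5021c_nt.Eis.normSq_emb x
  have h0 := Pool.Agent.MP_b5021c_nt.Eis.norm_nonneg x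
  have h2 : ((nE x : ℕ) : ℤ) = x.norm := by
    unfold nE
    exact Int.natAbs_of_nonneg h0
  rw [h1, ← h2]
  norm_cast

theorem sqrt_nE (x : Eis) : Real.sqrt (nE x) = ‖(Coef.emb x : ℂ)‖ := by
  rw [nE_cast, Real.sqrt_sq (norm_nonneg _)]

theorem three_le_nE {x : Eis} (h : 1 < ‖(Coef.emb x : ℂ)‖) : 3 ≤ nE x := by
  have h1 : (1 : ℝ) < (nE x : ℝ) := by
    rw [nE_cast]
    nlinarith
  have h2 : 1 < nE x := by exact_mod_cast h1
  have h3 : nE x ≠ 2 := by
    intro h3
    apply Pool.Agent.MP_b5021c_nt.Eis.norm_ne_two x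
    have h0 := Pool.Agent.MP_b5021c_nt.Eis.norm_nonneg x
    unfold nE at h3
    omega
  omega

theorem classV_const {N : ℝ} {Q : RO Eis} (h : ClassV N Q) :
    ∃ ga : Eis, ‖(Coef.emb ga : ℂ)‖ = N := by
  obtain ⟨_, _, q, _, hq, _⟩ := h
  exact ⟨q.coeff 0, hq⟩

/-- (EV_CEV) one closing, with facet ports. -/
theorem cev (clp : ClpS) (g1p : G1pS) (lsn : LsnS) (mv : MVS) (e1 : E1S) (mm : MmulS)
    (evm : EvmS) : CevS := by
  classical
  intro P L _ _ _ _ _ phi D S i0 eta h c n G al be m hFP hFD hal hbe hm hlt hind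
  have hM0 : M (D.coeff 0) = ‖(Coef.emb al : ℂ)‖ := ((mv Eis).1 _ _ hal).2
  have hMV : M (D.coeff 0 + (eta : RO Eis) * D.coeff S) = ‖(Coef.emb be : ℂ)‖ :=
    ((mv Eis).1 _ _ hbe).2
  have hbe1 : 1 ≤ ‖(Coef.emb be : ℂ)‖ := hbe.1
  have hclp := clp Eis P L phi D S i0 eta h c n G hFP hFD
  have hrk := g1p Eis P L phi D S i0 eta h c n G hFD
    (fun i b _ hp _ => absurd hp (hclp.2 i).1)
  have hls := lsn Eis P L phi D S i0 eta h c n G hFD
  rw [hM0, hMV] at hls
  rw [hFD.v00] at hbe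
  obtain ⟨Nc, Np, h1, h2, hNN⟩ := (e1 Eis).1 _ _ _ hbe
  obtain ⟨h3, h4⟩ := classV_prod e1 mv mm (fun i => (G i).coeff 0) Finset.univ Np h2
  have hex : ∀ i, ∃ ga : Eis, ‖(Coef.emb ga : ℂ)‖ = M ((G i).coeff 0) :=
    fun i => classV_const (h3 i (Finset.mem_univ i))
  choose ga hga using hex
  obtain ⟨gc, hgc⟩ := classV_const h1
  have hone : ∀ i, 1 ≤ M ((G i).coeff 0) := fun i => (h3 i (Finset.mem_univ i)).1
  -- the product over all factors is the product over the big ones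
  have hall : ∏ i, M ((G i).coeff 0) = ∏ i ∈ big G, M ((G i).coeff 0) := by
    symm
    apply Finset.prod_subset (Finset.subset_univ _)
    intro i _ hi
    unfold big at hi
    rw [Finset.mem_filter] at hi
    have h5 : ¬ 1 < M ((G i).coeff 0) := fun h6 => hi ⟨Finset.mem_univ i, h6⟩
    exact le_antisymm (not_lt.1 h5) (hone i)
  have hbig : ∀ i ∈ big G, 1 < M ((G i).coeff 0) := by
    intro i hi
    unfold big at hi
    rw [Finset.mem_filter] at hi
    exact hi.2
  have h3le : ∀ i ∈ big G, 3 ≤ nE (ga i) := by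
    intro i hi
    apply three_le_nE
    rw [hga i]
    exact hbig i hi
  have hnb : ((∏ i ∈ big G, nE (ga i) : ℕ) : ℝ) = (∏ i ∈ big G, M ((G i).coeff 0)) ^ 2 := by
    rw [Nat.cast_prod, ← Finset.prod_pow]
    refine Finset.prod_congr rfl fun i _ => ?_
    rw [nE_cast, hga i]
  have hprod0 : 0 ≤ ∏ i ∈ big G, M ((G i).coeff 0) :=
    zero_le_one.trans (one_le_prod _ _ fun i _ => hone i)
  have hcn : nE gc * ∏ i ∈ big G, nE (ga i) = nE be := by
    have h5 : ((nE gc * ∏ i ∈ big G, nE (ga i) : ℕ) : ℝ) = ((nE be : ℕ) : ℝ) := by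
      rw [Nat.cast_mul, hnb, nE_cast gc, nE_cast be, hgc, hNN, h4, ← hall]
      ring
    exact_mod_cast h5
  have hbepos : 0 < nE be := by
    have h5 : (0 : ℝ) < (nE be : ℝ) := by
      rw [nE_cast]
      positivity
    exact_mod_cast h5
  refine ⟨nE gc, ∏ i ∈ big G, nE (ga i), ?_, hcn, ?_, ?_⟩
  · rcases Finset.eq_empty_or_nonempty (big G) with he | ⟨i, hi⟩
    · left
      rw [he, Finset.prod_empty]
    · right
      refine (h3le i hi).trans (Nat.le_of_dvd ?_ (Finset.dvd_prod_of_mem _ hi))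
      apply Finset.prod_pos
      intro j hj
      have := h3le j hj
      omega
  · have h5 : ∀ i ∈ big G, rk (supp (G i)) ≤ Bev (nE (ga i)) := by
      intro i hi
      obtain ⟨_, K, _, _, hK, hDD⟩ := hclp.2 i
      have h6 : nE (ga i) ≤ nE be := by
        apply Nat.le_of_dvd hbepos
        rw [← hcn]
        exact (Finset.dvd_prod_of_mem (fun i => nE (ga i)) hi).mul_left _
      have h7 := hind (ga i) (h6.trans_lt hlt) P K ((phO phi S i0).comp (incl K))
        (res K (G i)) hDD (by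
          rw [hga i, res_coeff]
          exact h3 i (Finset.mem_univ i))
      rw [hK] at h7
      exact_mod_cast h7
    have h6 := evm.2.2.2 (Fin n) (big G) (fun i => nE (ga i)) h3le
    have h7 := Finset.sum_le_sum h5
    omega
  · have h5 : Real.sqrt ((∏ i ∈ big G, nE (ga i) : ℕ) : ℝ) =
        ∏ i ∈ big G, M ((G i).coeff 0) := by
      rw [hnb, Real.sqrt_sq hprod0]
    rw [h5, sqrt_nE be, nE_cast al]
    linarith

end Pool.Agent.B5.H93
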